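import Pool.Agent.helper7.EP.SpecL

/-! Project ep:, module BIL: the bilinear estimate modulo a power of two. -/

set_option autoImplicit false

open Finset
open scoped Real

noncomputable section

namespace Pool.Agent.EP

section

variable {q : ℕ} [NeZero q]

theorem BIL_neg (a : ZMod q) : (ZMod.stdAddChar (-a) : ℂ) =
    (starRingEnd ℂ) (ZMod.stdAddChar a) := by
  rw [AddChar.map_neg_eq_inv, Complex.inv_def, Complex.normSq_eq_norm_sq, AddChar.norm_apply]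
  simp

/-- Parseval. -/
theorem BIL_par {ι : Type} [DecidableEq ι] (T : Finset ι) (u : ι → ZMod q) :
    ∑ h : ZMod q, ‖∑ t ∈ T, (ZMod.stdAddChar (h * u t) : ℂ)‖ ^ 2 =
      (q : ℝ) * #{p ∈ T ×ˢ T | u p.1 = u p.2} := by
  have h1 : ((∑ h : ZMod q, ‖∑ t ∈ T, (ZMod.stdAddChar (h * u t) : ℂ)‖ ^ 2 : ℝ) : ℂ) =
      (((q : ℝ) * #{p ∈ T ×ˢ T | u p.1 = u p.2} : ℝ) : ℂ) := by
    push_cast
    have h2 : ∀ h : ZMod q, ((‖∑ t ∈ T, (ZMod.stdAddChar (h * u t) : ℂ)‖ : ℝ) : ℂ) ^ 2 =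
        ∑ p ∈ T ×ˢ T, (ZMod.stdAddChar (h * (u p.1 - u p.2)) : ℂ) := by
      intro h
      rw [← Complex.mul_conj', map_sum, Finset.sum_mul_sum, Finset.sum_product]
      refine Finset.sum_congr rfl fun t _ => Finset.sum_congr rfl fun t' _ => ?_
      rw [← BIL_neg, ← AddChar.map_add_eq_mul]
      congr 1
      ring
    rw [Finset.sum_congr rfl fun h _ => h2 h, Finset.sum_comm]
    rw [Finset.sum_congr rfl fun p _ =>
      AddChar.sum_mulShift (u p.1 - u p.2) (ZMod.isPrimitive_stdAddChar q)]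
    simp only [ZMod.card, Nat.cast_ite, Nat.cast_zero, sub_eq_zero]
    rw [← Finset.sum_filter, Finset.sum_const, nsmul_eq_mul, mul_comm]
  exact_mod_cast h1

/-- Orthogonality. -/
theorem BIL_orth {ι : Type} (T : Finset ι) (u : ι → ZMod q) :
    ∑ h : ZMod q, ∑ t ∈ T, (ZMod.stdAddChar (h * u t) : ℂ) =
      (q : ℂ) * (#{t ∈ T | u t = 0} : ℕ) := by
  rw [Finset.sum_comm]
  rw [Finset.sum_congr rfl fun t _ =>
    AddChar.sum_mulShift (u t) (ZMod.isPrimitive_stdAddChar q)]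
  simp only [ZMod.card, Nat.cast_ite, Nat.cast_zero]
  rw [← Finset.sum_filter, Finset.sum_const, nsmul_eq_mul, mul_comm]

end

theorem BIL_K (m l : ℕ) [NeZero (2 ^ m)] (h : ZMod (2 ^ m)) (hL : h * ((2 ^ l : ℕ) : ZMod (2 ^ m)) ≠ 0) :
    #{t : ZMod (2 ^ m) | h * t = 0} * (2 * 2 ^ l) ≤ 2 ^ m := by
  set H : AddSubgroup (ZMod (2 ^ m)) := (AddMonoidHom.mulLeft h).ker with hH
  have hmem : ∀ t, t ∈ H ↔ h * t = 0 := fun t => by
    rw [hH, AddMonoidHom.mem_ker]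
    rfl
  have hcard : #{t : ZMod (2 ^ m) | h * t = 0} = Nat.card H := by
    rw [Nat.card_eq_fintype_card]
    exact (Fintype.card_of_subtype _ (fun t => by simp [hmem])).symm
  have hdvd : Nat.card H ∣ 2 ^ m := by
    have h1 := AddSubgroup.card_addSubgroup_dvd_card H
    rwa [Nat.card_zmod] at h1
  obtain ⟨i, hi, hc⟩ := (Nat.dvd_prime_pow Nat.prime_two).1 hdvd
  have hidx : H.index = 2 ^ (m - i) := by
    have h1 := H.card_mul_index
    rw [Nat.card_zmod, hc] at h1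
    have h2 : 2 ^ m = 2 ^ i * 2 ^ (m - i) := by
      rw [← pow_add]
      congr 1
      omega
    exact Nat.eq_of_mul_eq_mul_left (by positivity : 0 < 2 ^ i) (h1.trans h2)
  have hlt : l < m - i := by
    by_contra hcon
    push Not at hcon
    apply hL
    have h1 : H.index • (1 : ZMod (2 ^ m)) ∈ H := H.nsmul_index_mem 1
    have h2 : 2 ^ (l - (m - i)) • (H.index • (1 : ZMod (2 ^ m))) ∈ H := H.nsmul_mem h1 _
    rw [hidx, smul_smul, ← pow_add, show l - (m - i) + (m - i) = l by omega, hmem,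
      nsmul_one] at h2
    exact h2
  rw [hcard, hc]
  calc 2 ^ i * (2 * 2 ^ l) = 2 ^ (i + l + 1) := by rw [pow_add, pow_add]; ring
    _ ≤ 2 ^ m := Nat.pow_le_pow_right (by norm_num) (by omega)

theorem BIL : BIL_stmt := by
  intro m l hlm S₁ S₂ g x hg hyp
  have : NeZero (2 ^ m : ℕ) := ⟨by positivity⟩
  have hLq : 2 ^ l ≤ 2 ^ m := Nat.pow_le_pow_right (by norm_num) hlm
  set e : ZMod (2 ^ m) → ℂ := fun a => ZMod.stdAddChar a with he
  set D : ZMod (2 ^ m) → ℂ := fun h => ∑ y ∈ range (2 ^ l), e (h * (y : ZMod (2 ^ m))) with hD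
  set B : ZMod (2 ^ m) → ℂ := fun h => ∑ p ∈ S₁ ×ˢ S₂, e (h * (g * p.1 * p.2)) with hB
  set n : ℝ := (#S₁ : ℝ) * #S₂ with hn
  set L : ℝ := (2 : ℝ) ^ l with hLdef
  set Q : ℝ := (2 : ℝ) ^ m with hQdef
  have hL0 : 0 < L := by positivity
  have hQ0 : 0 < Q := by positivity
  have hn0 : 0 ≤ n := by positivity
  have he0 : e 0 = 1 := AddChar.map_zero_eq_one _
  have hadd : ∀ a b, e (a + b) = e a * e b := fun a b => AddChar.map_add_eq_mul _ a b
  have hnorm : ∀ a, ‖e a‖ = 1 := fun a => AddChar.norm_apply _ a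
  have hcastinj : ∀ y y' : ℕ, y < 2 ^ l → y' < 2 ^ l →
      (y : ZMod (2 ^ m)) = (y' : ZMod (2 ^ m)) → y = y' := by
    intro y y' hy hy' h1
    rw [ZMod.natCast_eq_natCast_iff'] at h1
    rwa [Nat.mod_eq_of_lt (lt_of_lt_of_le hy hLq), Nat.mod_eq_of_lt (lt_of_lt_of_le hy' hLq)] at h1
  -- Parseval for D
  have hD2 : ∑ h : ZMod (2 ^ m), ‖D h‖ ^ 2 = Q * L := by
    have h1 := BIL_par (q := 2 ^ m) (range (2 ^ l)) (fun y : ℕ => (y : ZMod (2 ^ m)))
    have h2 : #{p ∈ range (2 ^ l) ×ˢ range (2 ^ l) | ((p.1 : ℕ) : ZMod (2 ^ m)) = (p.2 : ℕ)} =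
        2 ^ l := by
      have h3 : {p ∈ range (2 ^ l) ×ˢ range (2 ^ l) | ((p.1 : ℕ) : ZMod (2 ^ m)) = (p.2 : ℕ)} =
          (range (2 ^ l)).image (fun y => (y, y)) := by
        ext ⟨y, y'⟩
        simp only [mem_filter, mem_product, mem_range, mem_image, Prod.mk.injEq]
        constructor
        · rintro ⟨⟨h4, h5⟩, h6⟩
          have := hcastinj y y' h4 h5 h6
          exact ⟨y, h4, rfl, this⟩
        · rintro ⟨z, hz, rfl, rfl⟩
          exact ⟨⟨hz, hz⟩, rfl⟩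
      rw [h3, card_image_of_injective _ (fun a b hab => (Prod.mk.inj hab).1), card_range]
    rw [h2] at h1
    rw [hD, hQdef, hLdef]
    simp only [he]
    rw [h1]
    push_cast
    ring
  -- vanishing of D
  have hD0 : ∀ h : ZMod (2 ^ m), h ≠ 0 → h * ((2 ^ l : ℕ) : ZMod (2 ^ m)) = 0 → D h = 0 := by
    intro h hh hhL
    have h1 : ∀ y : ℕ, e (h * (y : ZMod (2 ^ m))) = e h ^ y := by
      intro y
      induction y with
      | zero => simp [he0]
      | succ y ih =>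
        rw [Nat.cast_succ, mul_add, mul_one, hadd, ih, pow_succ]
    have h2 : D h = ∑ y ∈ range (2 ^ l), e h ^ y := Finset.sum_congr rfl fun y _ => h1 y
    have h3 : (∑ y ∈ range (2 ^ l), e h ^ y) * (e h - 1) = 0 := by
      rw [geom_sum_mul, ← h1, hhL, he0, sub_self]
    have h4 : e h - 1 ≠ 0 := by
      intro h5
      apply hh
      apply ZMod.injective_stdAddChar
      have h6 : e h = 1 := sub_eq_zero.1 h5
      rw [AddChar.map_zero_eq_one]
      exact h6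
    rw [h2]
    exact (mul_eq_zero.1 h3).resolve_right h4
  -- the bound for B
  have hBb : ∀ h : ZMod (2 ^ m), h * ((2 ^ l : ℕ) : ZMod (2 ^ m)) ≠ 0 →
      ‖B h‖ ^ 2 * (2 * L) ≤ n * Q ^ 2 := by
    intro h hh
    have h1 : B h = ∑ s₁ ∈ S₁, ∑ s₂ ∈ S₂, e (s₁ * (h * g * s₂)) := by
      rw [hB]
      simp only
      rw [Finset.sum_product]
      refine Finset.sum_congr rfl fun s₁ _ => Finset.sum_congr rfl fun s₂ _ => ?_
      congr 1
      ring
    have h2 : ‖B h‖ ^ 2 ≤ #S₁ * ∑ s₁ ∈ S₁, ‖∑ s₂ ∈ S₂, e (s₁ * (h * g * s₂))‖ ^ 2 := by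
      calc ‖B h‖ ^ 2 ≤ (∑ s₁ ∈ S₁, ‖∑ s₂ ∈ S₂, e (s₁ * (h * g * s₂))‖) ^ 2 := by
            rw [h1]
            exact pow_le_pow_left₀ (norm_nonneg _) (norm_sum_le _ _) 2
        _ ≤ _ := sq_sum_le_card_mul_sum_sq
    have h3 : ∑ s₁ ∈ S₁, ‖∑ s₂ ∈ S₂, e (s₁ * (h * g * s₂))‖ ^ 2 ≤
        ∑ s₁ : ZMod (2 ^ m), ‖∑ s₂ ∈ S₂, e (s₁ * (h * g * s₂))‖ ^ 2 :=
      Finset.sum_le_sum_of_subset_of_nonneg (Finset.subset_univ _)
        (fun _ _ _ => by positivity)
    have h4 := BIL_par (q := 2 ^ m) S₂ (fun s₂ => h * g * s₂)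
    have h5 : #{p ∈ S₂ ×ˢ S₂ | h * g * p.1 = h * g * p.2} ≤
        #(({t : ZMod (2 ^ m) | h * t = 0} : Finset (ZMod (2 ^ m))) ×ˢ S₂) := by
      apply Finset.card_le_card_of_injOn (fun p => (g * (p.1 - p.2), p.2))
      · intro p hp
        simp only [coe_filter, mem_product, Set.mem_setOf_eq] at hp
        simp only [coe_product, Set.mem_prod, Finset.mem_coe, mem_filter, mem_univ, true_and]
        refine ⟨?_, hp.1.2⟩
        have h6 := hp.2
        linear_combination h6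
      · intro p hp p' hp' hpp
        simp only [Prod.mk.injEq] at hpp
        obtain ⟨h6, h7⟩ := hpp
        rw [h7] at h6
        have h8 := hg.mul_left_cancel h6
        exact Prod.ext (sub_left_injective h8) h7
    rw [Finset.card_product] at h5
    have h6 := BIL_K m l h hh
    have h7 : (#{p ∈ S₂ ×ˢ S₂ | h * g * p.1 = h * g * p.2} : ℝ) * (2 * L) ≤ #S₂ * Q := by
      have h8 : #{p ∈ S₂ ×ˢ S₂ | h * g * p.1 = h * g * p.2} * (2 * 2 ^ l) ≤ #S₂ * 2 ^ m := by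
        calc #{p ∈ S₂ ×ˢ S₂ | h * g * p.1 = h * g * p.2} * (2 * 2 ^ l)
            ≤ (#{t : ZMod (2 ^ m) | h * t = 0} * #S₂) * (2 * 2 ^ l) :=
              Nat.mul_le_mul_right _ h5
          _ = #S₂ * (#{t : ZMod (2 ^ m) | h * t = 0} * (2 * 2 ^ l)) := by ring
          _ ≤ #S₂ * 2 ^ m := Nat.mul_le_mul_left _ h6
      rw [hLdef, hQdef]
      exact_mod_cast h8
    have h9 : ∑ s₁ : ZMod (2 ^ m), ‖∑ s₂ ∈ S₂, e (s₁ * (h * g * s₂))‖ ^ 2 =
        Q * #{p ∈ S₂ ×ˢ S₂ | h * g * p.1 = h * g * p.2} := by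
      rw [h4]
      push_cast
      rfl
    calc ‖B h‖ ^ 2 * (2 * L)
        ≤ (#S₁ * (Q * #{p ∈ S₂ ×ˢ S₂ | h * g * p.1 = h * g * p.2})) * (2 * L) := by
          apply mul_le_mul_of_nonneg_right _ (by positivity)
          refine h2.trans (mul_le_mul_of_nonneg_left (h3.trans h9.le) (by positivity))
      _ = #S₁ * Q * (#{p ∈ S₂ ×ˢ S₂ | h * g * p.1 = h * g * p.2} * (2 * L)) := by ring
      _ ≤ #S₁ * Q * (#S₂ * Q) := mul_le_mul_of_nonneg_left h7 (by positivity)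
      _ = n * Q ^ 2 := by rw [hn]; ring
  -- counting
  set T : Finset ((ZMod (2 ^ m) × ZMod (2 ^ m)) × (ℕ × ℕ)) :=
    (S₁ ×ˢ S₂) ×ˢ (range (2 ^ l) ×ˢ range (2 ^ l)) with hT
  set u : (ZMod (2 ^ m) × ZMod (2 ^ m)) × (ℕ × ℕ) → ZMod (2 ^ m) :=
    fun t => g * t.1.1 * t.1.2 - x - t.2.1 + t.2.2 with hu
  set N : ℕ := #{t ∈ T | u t = 0} with hN
  have hsum : ∀ h : ZMod (2 ^ m), ∑ t ∈ T, e (h * u t) =
      e (-(h * x)) * B h * ((starRingEnd ℂ) (D h) * D h) := by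
    intro h
    have h1 : (starRingEnd ℂ) (D h) = ∑ y ∈ range (2 ^ l), e (-(h * (y : ZMod (2 ^ m)))) := by
      rw [hD]
      simp only
      rw [map_sum]
      exact Finset.sum_congr rfl fun y _ => (BIL_neg _).symm
    rw [h1, hD, hB]
    simp only
    rw [Finset.sum_mul_sum, ← Finset.sum_product', mul_assoc, Finset.sum_mul_sum, Finset.mul_sum,
      hT, Finset.sum_product]
    refine Finset.sum_congr rfl fun p _ => ?_
    rw [Finset.mul_sum]
    refine Finset.sum_congr rfl fun r _ => ?_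
    rw [← hadd, ← hadd, ← hadd]
    congr 1
    rw [hu]
    simp only
    ring
  have hmain : ((2 ^ m : ℕ) : ℂ) * N = ∑ h : ZMod (2 ^ m),
      e (-(h * x)) * B h * ((starRingEnd ℂ) (D h) * D h) := by
    rw [← Finset.sum_congr rfl fun h _ => hsum h]
    exact (BIL_orth T u).symm
  have hB0 : B 0 = (n : ℂ) := by
    rw [hB, hn]
    simp only [zero_mul, he0, sum_const, card_product, nsmul_eq_mul, mul_one]
    push_cast
    ring
  have hDz : D 0 = (L : ℂ) := by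
    rw [hD, hLdef]
    simp only [zero_mul, he0, sum_const, card_range, nsmul_eq_mul, mul_one]
    push_cast
    ring
  rw [← Finset.add_sum_erase _ _ (Finset.mem_univ (0 : ZMod (2 ^ m)))] at hmain
  rw [hB0, hDz, Complex.conj_ofReal, zero_mul, neg_zero, he0, one_mul] at hmain
  have herr : ‖∑ h ∈ Finset.univ.erase (0 : ZMod (2 ^ m)),
      e (-(h * x)) * B h * ((starRingEnd ℂ) (D h) * D h)‖ ≤ L ^ 2 * n / 2 := by
    refine (norm_sum_le _ _).trans ?_
    have h1 : ∀ h ∈ Finset.univ.erase (0 : ZMod (2 ^ m)),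
        ‖e (-(h * x)) * B h * ((starRingEnd ℂ) (D h) * D h)‖ ≤ L * n / (2 * Q) * ‖D h‖ ^ 2 := by
      intro h hh
      have hne : h ≠ 0 := Finset.ne_of_mem_erase hh
      rw [norm_mul, norm_mul, norm_mul, hnorm, one_mul, RCLike.norm_conj, ← sq]
      by_cases hz : h * ((2 ^ l : ℕ) : ZMod (2 ^ m)) = 0
      · rw [hD0 h hne hz]
        simp
      · apply mul_le_mul_of_nonneg_right _ (by positivity)
        have h2 := hBb h hz
        have h3 : 4 * Q ^ 4 ≤ L ^ 3 * n := by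
          have : ((4 * (2 ^ m) ^ 4 : ℕ) : ℝ) ≤ (((2 ^ l) ^ 3 * (#S₁ * #S₂) : ℕ) : ℝ) := by
            exact_mod_cast hyp
          push_cast at this
          rw [hn]
          exact this
        apply le_of_sq_le_sq _ (by positivity)
        rw [div_pow, le_div_iff₀ (by positivity)]
        have h4 : (4 * Q ^ 4) * n ≤ (L ^ 3 * n) * n := mul_le_mul_of_nonneg_right h3 hn0
        have h5 : ‖B h‖ ^ 2 * (2 * L) * (2 * Q ^ 2) ≤ n * Q ^ 2 * (2 * Q ^ 2) :=
          mul_le_mul_of_nonneg_right h2 (by positivity)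
        have h6 : (‖B h‖ ^ 2 * (2 * Q) ^ 2) * L ≤ (L * n) ^ 2 * L := by nlinarith
        exact le_of_mul_le_mul_right h6 hL0
    refine (Finset.sum_le_sum h1).trans ?_
    rw [← Finset.mul_sum]
    have h2 : ∑ h ∈ Finset.univ.erase (0 : ZMod (2 ^ m)), ‖D h‖ ^ 2 ≤ Q * L := by
      rw [← hD2]
      exact Finset.sum_le_sum_of_subset_of_nonneg (Finset.erase_subset _ _)
        (fun _ _ _ => by positivity)
    calc L * n / (2 * Q) * ∑ h ∈ Finset.univ.erase (0 : ZMod (2 ^ m)), ‖D h‖ ^ 2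
        ≤ L * n / (2 * Q) * (Q * L) := mul_le_mul_of_nonneg_left h2 (by positivity)
      _ = L ^ 2 * n / 2 := by field_simp
  have hlow : L ^ 2 * n / 2 ≤ Q * N := by
    have h1 : ((Q * N - L ^ 2 * n : ℝ) : ℂ) = ∑ h ∈ Finset.univ.erase (0 : ZMod (2 ^ m)),
        e (-(h * x)) * B h * ((starRingEnd ℂ) (D h) * D h) := by
      have h2 : ((Q : ℝ) : ℂ) = ((2 ^ m : ℕ) : ℂ) := by
        rw [hQdef]
        push_cast
        ring
      push_cast at hmain ⊢
      rw [hQdef]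
      push_cast
      linear_combination hmain
    have h3 : |Q * N - L ^ 2 * n| ≤ L ^ 2 * n / 2 := by
      rw [← Real.norm_eq_abs, ← Complex.norm_real, h1]
      exact herr
    have h4 := (abs_le.1 h3).1
    linarith
  -- comparison with the number of pairs
  classical
  set P : Finset (ZMod (2 ^ m) × ZMod (2 ^ m)) :=
    {s ∈ S₁ ×ˢ S₂ | ∃ y y' : ℕ, y < 2 ^ l ∧ y' < 2 ^ l ∧
      g * s.1 * s.2 = x + (y : ZMod (2 ^ m)) - y'} with hP
  have hset : {s : ZMod (2 ^ m) × ZMod (2 ^ m) | s.1 ∈ S₁ ∧ s.2 ∈ S₂ ∧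
        ∃ y y' : ℕ, y < 2 ^ l ∧ y' < 2 ^ l ∧ g * s.1 * s.2 = x + (y : ZMod (2 ^ m)) - y'} =
      (P : Set (ZMod (2 ^ m) × ZMod (2 ^ m))) := by
    ext s
    rw [hP]
    simp only [Set.mem_setOf_eq, coe_filter, mem_product]
    tauto
  rw [hset, Set.ncard_coe_finset]
  have hNP : N ≤ #P * 2 ^ l := by
    have h1 : N ≤ #(P ×ˢ range (2 ^ l)) := by
      apply Finset.card_le_card_of_injOn (fun t => (t.1, t.2.2))
      · rintro ⟨⟨s₁, s₂⟩, ⟨y, y'⟩⟩ ht
        rw [Finset.mem_coe, mem_filter, hT, mem_product, mem_product, mem_product, mem_range,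
          mem_range] at ht
        obtain ⟨⟨⟨h2, h3⟩, h4, h5⟩, h6⟩ := ht
        simp only at h2 h3 h4 h5
        rw [Finset.mem_coe, mem_product, mem_range]
        refine ⟨?_, h5⟩
        rw [hP, mem_filter, mem_product]
        refine ⟨⟨h2, h3⟩, y, y', h4, h5, ?_⟩
        simp only [hu] at h6
        linear_combination h6
      · rintro ⟨⟨s₁, s₂⟩, ⟨y, y'⟩⟩ ht ⟨⟨t₁, t₂⟩, ⟨z, z'⟩⟩ ht' heq
        rw [Finset.mem_coe, mem_filter, hT, mem_product, mem_product, mem_product, mem_range,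
          mem_range] at ht ht'
        obtain ⟨⟨⟨h2, h3⟩, h4, h5⟩, h6⟩ := ht
        obtain ⟨⟨⟨k2, k3⟩, k4, k5⟩, k6⟩ := ht'
        simp only [Prod.mk.injEq] at heq h4 k4 h6 k6
        obtain ⟨⟨rfl, rfl⟩, rfl⟩ := heq
        simp only [hu] at h6 k6
        have h7 : (y : ZMod (2 ^ m)) = (z : ZMod (2 ^ m)) := by linear_combination k6 - h6
        rw [hcastinj y z h4 k4 h7]
    rwa [card_product, card_range] at h1
  have hfin : L * (L * n) ≤ L * (2 * Q * #P) := by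
    have h1 : (N : ℝ) ≤ #P * L := by
      rw [hLdef]
      exact_mod_cast hNP
    have h2 : Q * (N : ℝ) ≤ Q * (#P * L) := mul_le_mul_of_nonneg_left h1 hQ0.le
    nlinarith
  have hfin2 := le_of_mul_le_mul_left hfin hL0
  rw [hLdef, hn, hQdef] at hfin2
  exact_mod_cast hfin2

end Pool.Agent.EP
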