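import Pool.Agent.helper81.EP.SpecC

/-!
# Project ep (MP_ebc808_nt), module CY: the exponent 2/3 for every X
-/

set_option autoImplicit false

open Finset Filter
open scoped Real

namespace Pool.Agent.EP

theorem CY_sE_mono {a b : ℕ} (h : a ≤ b) : sE a ≤ sE b := by
  unfold sE
  refine card_le_card (filter_subset_filter _ ?_)
  intro x hx
  rw [mem_range] at hx ⊢
  omega

/-- The size of the number `X`. -/
theorem CY_X {y η K A X : ℝ} (hη0 : 0 < η) (hη1 : η ≤ 1 / 100) (hK : 1 ≤ K) (hy : 1 ≤ y)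
    (h4 : 40 * K ^ 3 ≤ y ^ (1 / 4 : ℝ)) (hX0 : 0 ≤ X)
    (hA1 : y ^ (1 / 3 + 2 * η) ≤ A) (hA2 : A ≤ K * y ^ (1 / 3 + 3 * η))
    (hX1 : X * A ≤ y) (hX2 : y < (X + 1) * A) :
    X ≤ y ^ (2 / 3 - 2 * η) ∧ y ^ (2 / 3 - 3 * η) ≤ 2 * K * X := by
  have hy0 : 0 < y := by linarith
  have hP0 : 0 < y ^ (1 / 3 + 2 * η) := Real.rpow_pos_of_pos hy0 _
  have hQ0 : 0 < y ^ (1 / 3 + 3 * η) := Real.rpow_pos_of_pos hy0 _
  constructor
  · have h1 : y ^ (2 / 3 - 2 * η) * y ^ (1 / 3 + 2 * η) = y := by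
      rw [← Real.rpow_add hy0]
      have : 2 / 3 - 2 * η + (1 / 3 + 2 * η) = 1 := by ring
      rw [this, Real.rpow_one]
    refine le_of_mul_le_mul_right ?_ hP0
    rw [h1]
    calc X * y ^ (1 / 3 + 2 * η) ≤ X * A := mul_le_mul_of_nonneg_left hA1 hX0
      _ ≤ y := hX1
  · have h1 : y ^ (2 / 3 - 3 * η) * y ^ (1 / 3 + 3 * η) = y := by
      rw [← Real.rpow_add hy0]
      have : 2 / 3 - 3 * η + (1 / 3 + 3 * η) = 1 := by ring
      rw [this, Real.rpow_one]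
    have h2 : y ^ (2 / 3 - 3 * η) * y ^ (1 / 3 + 3 * η) ≤ ((X + 1) * K) * y ^ (1 / 3 + 3 * η) := by
      rw [h1, mul_assoc]
      exact hX2.le.trans (mul_le_mul_of_nonneg_left hA2 (by linarith))
    have h3 : y ^ (2 / 3 - 3 * η) ≤ (X + 1) * K := le_of_mul_le_mul_right h2 hQ0
    have h5 : y ^ (1 / 4 : ℝ) ≤ y ^ (2 / 3 - 3 * η) :=
      Real.rpow_le_rpow_of_exponent_le hy (by linarith)
    have h6 : 2 * K ≤ 40 * K ^ 3 := by
      have : K ≤ K ^ 3 := by nlinarith [mul_nonneg (by linarith : (0:ℝ) ≤ K - 1) (by linarith : (0:ℝ) ≤ K), sq_nonneg (K - 1)]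
      nlinarith
    nlinarith

/-- The size of the number `z`. -/
theorem CY_z {y η K A X z d : ℝ} (hη0 : 0 < η) (hη1 : η ≤ 1 / 100) (hK : 1 ≤ K) (hy : 1 ≤ y)
    (h4 : 40 * K ^ 3 ≤ y ^ (1 / 4 : ℝ)) (hz0 : 0 ≤ z)
    (hA2 : A ≤ K * y ^ (1 / 3 + 3 * η)) (hd2 : d ≤ K * y ^ (η / 2))
    (hX : y ^ (2 / 3 - 3 * η) ≤ 2 * K * X) (hz2 : X < (z + 1) * (10 * d)) :
    y ^ (2 / 3 - 7 / 2 * η) ≤ 40 * K ^ 2 * z ∧ A ≤ z := by
  have hy0 : 0 < y := by linarith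
  have hE0 : 0 < y ^ (η / 2) := Real.rpow_pos_of_pos hy0 _
  have hQ0 : 0 < y ^ (1 / 3 + 3 * η) := Real.rpow_pos_of_pos hy0 _
  have hK0 : 0 < K := by linarith
  have h1 : y ^ (2 / 3 - 7 / 2 * η) * y ^ (η / 2) = y ^ (2 / 3 - 3 * η) := by
    rw [← Real.rpow_add hy0]
    congr 1
    ring
  have h2 : y ^ (2 / 3 - 7 / 2 * η) * y ^ (η / 2) ≤ ((z + 1) * (20 * K ^ 2)) * y ^ (η / 2) := by
    rw [h1]
    calc y ^ (2 / 3 - 3 * η) ≤ 2 * K * X := hX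
      _ ≤ 2 * K * ((z + 1) * (10 * d)) := mul_le_mul_of_nonneg_left hz2.le (by linarith)
      _ ≤ 2 * K * ((z + 1) * (10 * (K * y ^ (η / 2)))) := by
        refine mul_le_mul_of_nonneg_left (mul_le_mul_of_nonneg_left ?_ (by linarith)) (by linarith)
        linarith
      _ = ((z + 1) * (20 * K ^ 2)) * y ^ (η / 2) := by ring
  have h3 : y ^ (2 / 3 - 7 / 2 * η) ≤ (z + 1) * (20 * K ^ 2) := le_of_mul_le_mul_right h2 hE0
  have h5 : y ^ (1 / 4 : ℝ) ≤ y ^ (2 / 3 - 7 / 2 * η) :=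
    Real.rpow_le_rpow_of_exponent_le hy (by linarith)
  have h6 : K ^ 2 ≤ K ^ 3 := pow_le_pow_right₀ hK (by norm_num)
  have h7 : y ^ (2 / 3 - 7 / 2 * η) ≤ 40 * K ^ 2 * z := by nlinarith
  refine ⟨h7, ?_⟩
  have h8 : y ^ (1 / 4 : ℝ) ≤ y ^ (1 / 3 - 13 / 2 * η) :=
    Real.rpow_le_rpow_of_exponent_le hy (by linarith)
  have h9 : y ^ (1 / 3 - 13 / 2 * η) * y ^ (1 / 3 + 3 * η) = y ^ (2 / 3 - 7 / 2 * η) := by
    rw [← Real.rpow_add hy0]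
    congr 1
    ring
  have h10 : 40 * K ^ 3 * y ^ (1 / 3 + 3 * η) ≤ y ^ (2 / 3 - 7 / 2 * η) := by
    rw [← h9]
    exact mul_le_mul_of_nonneg_right (h4.trans h8) hQ0.le
  have h11 : (40 * K ^ 2) * A ≤ (40 * K ^ 2) * z := by
    calc (40 * K ^ 2) * A ≤ (40 * K ^ 2) * (K * y ^ (1 / 3 + 3 * η)) :=
          mul_le_mul_of_nonneg_left hA2 (by positivity)
      _ = 40 * K ^ 3 * y ^ (1 / 3 + 3 * η) := by ring
      _ ≤ y ^ (2 / 3 - 7 / 2 * η) := h10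
      _ ≤ 40 * K ^ 2 * z := h7
  exact le_of_mul_le_mul_left h11 (by positivity)

/-- The number of primes. -/
theorem CY_N {y η K z : ℝ} (hη0 : 0 < η) (hη1 : η ≤ 1 / 100) (hK : 1 ≤ K) (hy : 1 ≤ y)
    (hz : y ^ (2 / 3 - 7 / 2 * η) ≤ 40 * K ^ 2 * z) :
    y ^ (2 / 3 - 21 / 5 * η) ≤ 40 * K ^ 2 * z ^ (1 - η) := by
  have hy0 : 0 < y := by linarith
  have hK0 : 0 < K := by linarith
  have hR0 : 0 < y ^ (2 / 3 - 7 / 2 * η) := Real.rpow_pos_of_pos hy0 _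
  have hz0 : 0 < z := by
    by_contra h
    have h1 : 40 * K ^ 2 * z ≤ 0 := mul_nonpos_of_nonneg_of_nonpos (by positivity) (not_lt.1 h)
    linarith
  have h1 : (y ^ (2 / 3 - 7 / 2 * η)) ^ (1 - η) ≤ (40 * K ^ 2 * z) ^ (1 - η) :=
    Real.rpow_le_rpow hR0.le hz (by linarith)
  have h2 : (40 * K ^ 2 * z) ^ (1 - η) = (40 * K ^ 2) ^ (1 - η) * z ^ (1 - η) :=
    Real.mul_rpow (by positivity) hz0.le
  have h3 : (40 * K ^ 2) ^ (1 - η) ≤ (40 * K ^ 2) ^ (1 : ℝ) :=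
    Real.rpow_le_rpow_of_exponent_le (by nlinarith) (by linarith)
  rw [Real.rpow_one] at h3
  have h4 : (y ^ (2 / 3 - 7 / 2 * η)) ^ (1 - η) = y ^ ((2 / 3 - 7 / 2 * η) * (1 - η)) := by
    rw [← Real.rpow_mul hy0.le]
  have h5 : y ^ (2 / 3 - 21 / 5 * η) ≤ y ^ ((2 / 3 - 7 / 2 * η) * (1 - η)) :=
    Real.rpow_le_rpow_of_exponent_le hy (by nlinarith)
  calc y ^ (2 / 3 - 21 / 5 * η) ≤ y ^ ((2 / 3 - 7 / 2 * η) * (1 - η)) := h5
    _ = (y ^ (2 / 3 - 7 / 2 * η)) ^ (1 - η) := h4.symm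
    _ ≤ (40 * K ^ 2) ^ (1 - η) * z ^ (1 - η) := by rw [← h2]; exact h1
    _ ≤ 40 * K ^ 2 * z ^ (1 - η) :=
      mul_le_mul_of_nonneg_right h3 (Real.rpow_nonneg hz0.le _)

/-- The number of exceptions. -/
theorem CY_E {y η : ℝ} {A X : ℕ} (hy : 1 ≤ y) (hA0 : 1 ≤ A) (hAX : A ≤ X)
    (hA1 : y ^ (1 / 3 + 2 * η) ≤ A) (hX : (X : ℝ) ≤ y ^ (2 / 3 - 2 * η)) :
    (((Nat.sqrt (8 * X + 1) + 1) * (X / A + 1) : ℕ) : ℝ) ≤ 8 * y ^ (2 / 3 - 5 * η) := by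
  have hy0 : 0 < y := by linarith
  have hA0' : (1 : ℝ) ≤ A := by exact_mod_cast hA0
  have hX0 : (1 : ℝ) ≤ X := by exact_mod_cast hA0.trans hAX
  have hAX' : (A : ℝ) ≤ X := by exact_mod_cast hAX
  have h1 : (Nat.sqrt (8 * X + 1) : ℝ) ≤ 3 * √(X : ℝ) := by
    refine (Real.nat_sqrt_le_real_sqrt).trans ?_
    have : 3 * √(X : ℝ) = √(9 * X) := by
      rw [show (9 : ℝ) * X = 3 ^ 2 * X by norm_num, Real.sqrt_mul (by positivity),
        Real.sqrt_sq (by norm_num)]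
    rw [this]
    refine Real.sqrt_le_sqrt ?_
    push_cast
    linarith
  have h2 : (1 : ℝ) ≤ √(X : ℝ) := by
    rw [Real.one_le_sqrt]
    exact hX0
  have h3 : ((X / A : ℕ) : ℝ) ≤ X / A := Nat.cast_div_le
  have h4 : (1 : ℝ) ≤ X / A := by rw [le_div_iff₀ (by linarith)]; linarith
  have h5 : √(X : ℝ) ≤ y ^ (1 / 3 - η) := by
    have h6 := Real.sqrt_le_sqrt hX
    have h7 : √(y ^ (2 / 3 - 2 * η)) = y ^ (1 / 3 - η) := by
      rw [Real.sqrt_eq_rpow, ← Real.rpow_mul hy0.le]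
      congr 1
      ring
    rwa [h7] at h6
  push_cast
  have h8 : ((Nat.sqrt (8 * X + 1) : ℝ) + 1) * (((X / A : ℕ) : ℝ) + 1) ≤
      (4 * √(X : ℝ)) * (2 * (X / A)) := by
    refine mul_le_mul (by linarith) (by linarith) (by positivity) (by positivity)
  refine h8.trans ?_
  have h9 : y ^ (2 / 3 - 5 * η) * y ^ (1 / 3 + 2 * η) = y ^ (2 / 3 - 2 * η) * y ^ (1 / 3 - η) := by
    rw [← Real.rpow_add hy0, ← Real.rpow_add hy0]
    congr 1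
    ring
  have h10 : (X : ℝ) * √(X : ℝ) ≤ y ^ (2 / 3 - 2 * η) * y ^ (1 / 3 - η) :=
    mul_le_mul hX h5 (Real.sqrt_nonneg _) (Real.rpow_nonneg hy0.le _)
  have h11 : (X : ℝ) * √(X : ℝ) ≤ y ^ (2 / 3 - 5 * η) * A := by
    rw [← h9] at h10
    exact h10.trans (mul_le_mul_of_nonneg_left hA1 (Real.rpow_nonneg hy0.le _))
  have h12 : (4 * √(X : ℝ)) * (2 * ((X : ℝ) / A)) = 8 * ((X : ℝ) * √(X : ℝ) / A) := by ring
  rw [h12]
  have h13 : (X : ℝ) * √(X : ℝ) / A ≤ y ^ (2 / 3 - 5 * η) := by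
    rw [div_le_iff₀ (by linarith)]
    exact h11
  linarith

/-- The end of the computation. -/
theorem CY_fin {y η K W N E S : ℝ} (hK : 1 ≤ K) (hy : 1 ≤ y)
    (h1 : 3840 * K ^ 2 ≤ y ^ (4 / 5 * η)) (h2 : y ^ (2 / 3 - 21 / 5 * η) ≤ 40 * K ^ 2 * W)
    (h3 : E ≤ 8 * y ^ (2 / 3 - 5 * η)) (h4 : W / 8 ≤ N) (h5 : N ≤ E + 4 * S) :
    y ^ (2 / 3 - 5 * η) ≤ S := by
  have hy0 : 0 < y := by linarith
  have hK0 : 0 < K := by linarith
  have e1 : y ^ (2 / 3 - 5 * η) * y ^ (4 / 5 * η) = y ^ (2 / 3 - 21 / 5 * η) := by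
    rw [← Real.rpow_add hy0]
    congr 1
    ring
  have e2 : 3840 * K ^ 2 * y ^ (2 / 3 - 5 * η) ≤ y ^ (2 / 3 - 21 / 5 * η) := by
    rw [← e1, mul_comm (y ^ (2 / 3 - 5 * η))]
    exact mul_le_mul_of_nonneg_right h1 (Real.rpow_nonneg hy0.le _)
  have e3 : (40 * K ^ 2) * (96 * y ^ (2 / 3 - 5 * η)) ≤ (40 * K ^ 2) * W := by linarith
  have e4 : 96 * y ^ (2 / 3 - 5 * η) ≤ W := le_of_mul_le_mul_left e3 (by positivity)
  linarith

theorem CY (hCX : CX_stmt) (hCC : CC_stmt) (hCP : CP_stmt) : CY_stmt := by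
  intro ε hε
  set η : ℝ := min ε (1 / 20) / 5 with hη
  have hm0 : 0 < min ε (1 / 20) := lt_min hε (by norm_num)
  have hm1 : min ε (1 / 20) ≤ 1 / 20 := min_le_right _ _
  have hm2 : min ε (1 / 20) ≤ ε := min_le_left _ _
  have hη0 : 0 < η := by rw [hη]; linarith
  have hη1 : η ≤ 1 / 100 := by rw [hη]; linarith
  have hη2 : 5 * η ≤ ε := by rw [hη]; linarith
  clear_value η
  obtain ⟨K, Y₁, hK, hCX'⟩ := hCX η hη0 hη1
  obtain ⟨z₀, hz₀⟩ := hCP η hη0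
  have ht1 : Tendsto (fun n : ℕ => (n : ℝ) ^ (1 / 4 : ℝ)) atTop atTop :=
    (tendsto_rpow_atTop (by norm_num)).comp tendsto_natCast_atTop_atTop
  have ht2 : Tendsto (fun n : ℕ => (n : ℝ) ^ (4 / 5 * η)) atTop atTop :=
    (tendsto_rpow_atTop (by linarith)).comp tendsto_natCast_atTop_atTop
  obtain ⟨Y₂, hY₂⟩ := eventually_atTop.1 (ht1.eventually_ge_atTop (40 * K ^ 3 + 40 * K ^ 2 * z₀))
  obtain ⟨Y₃, hY₃⟩ := eventually_atTop.1 (ht2.eventually_ge_atTop (3840 * K ^ 2))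
  refine ⟨max 1 (max Y₁ (max Y₂ Y₃)), fun Y hY => ?_⟩
  have hYa : 1 ≤ Y := (le_max_left _ _).trans hY
  have hYb : Y₁ ≤ Y := ((le_max_left _ _).trans (le_max_right _ _)).trans hY
  have hYc : Y₂ ≤ Y :=
    (((le_max_left _ _).trans (le_max_right _ _)).trans (le_max_right _ _)).trans hY
  have hYd : Y₃ ≤ Y :=
    (((le_max_right _ _).trans (le_max_right _ _)).trans (le_max_right _ _)).trans hY
  obtain ⟨b, l, i, hb, hl, hl5, hodd, hA1, hA2, hd2⟩ := hCX' Y hYb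
  have g1 := hY₂ Y hYc
  have g2 := hY₃ Y hYd
  have hy : (1 : ℝ) ≤ (Y : ℝ) := by exact_mod_cast hYa
  set y : ℝ := (Y : ℝ) with hydef
  have hy0 : 0 < y := by linarith
  have hK0 : 0 < K := by linarith
  have hzK : (0 : ℝ) ≤ 40 * K ^ 2 * z₀ := by positivity
  have g3 : 40 * K ^ 3 ≤ y ^ (1 / 4 : ℝ) := by linarith
  have hK3 : (1 : ℝ) ≤ K ^ 3 := one_le_pow₀ hK
  set A : ℕ := 4 ^ b with hA
  set d : ℕ := l ^ i with hd
  have hAr : ((A : ℕ) : ℝ) = (4 : ℝ) ^ b := by rw [hA]; push_cast; ring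
  rw [← hAr] at hA1 hA2
  have hA0 : 1 ≤ A := Nat.one_le_pow _ _ (by norm_num)
  have hd0 : 1 ≤ d := Nat.one_le_pow _ _ hl.pos
  set X : ℕ := Y / A with hX
  set z : ℕ := X / (10 * d) with hz
  have hX1 : X * A ≤ Y := Nat.div_mul_le_self _ _
  have hX2 : Y < (X + 1) * A := by
    have := Nat.lt_div_mul_add (a := Y) (b := A) (by omega)
    rw [add_mul, one_mul]
    exact this
  have hz1 : z * (10 * d) ≤ X := Nat.div_mul_le_self _ _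
  have hz2 : X < (z + 1) * (10 * d) := by
    have := Nat.lt_div_mul_add (a := X) (b := 10 * d) (by omega)
    rw [add_mul, one_mul]
    exact this
  obtain ⟨e1, e2⟩ := CY_X (X := (X : ℝ)) hη0 hη1 hK hy g3 (Nat.cast_nonneg _) hA1 hA2
    (by rw [hydef]; exact_mod_cast hX1) (by rw [hydef]; exact_mod_cast hX2)
  obtain ⟨e3, e4⟩ := CY_z (z := (z : ℝ)) (d := (d : ℝ)) hη0 hη1 hK hy g3 (Nat.cast_nonneg _) hA2 hd2 e2
    (by exact_mod_cast hz2)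
  have e4' : A ≤ z := by exact_mod_cast e4
  have hzX : z ≤ X := by
    have : z * 1 ≤ z * (10 * d) := Nat.mul_le_mul_left _ (by omega)
    omega
  have e5 := CY_N hη0 hη1 hK hy e3
  have e6 := CY_E (η := η) hy hA0 (e4'.trans hzX) hA1 e1
  -- `z₀ ≤ z`
  have e7 : z₀ ≤ z := by
    have h1 : y ^ (1 / 4 : ℝ) ≤ y ^ (2 / 3 - 7 / 2 * η) :=
      Real.rpow_le_rpow_of_exponent_le hy (by linarith)
    have h2 : (40 * K ^ 2) * (z₀ : ℝ) ≤ (40 * K ^ 2) * (z : ℝ) := by linarith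
    have h3 : (z₀ : ℝ) ≤ z := le_of_mul_le_mul_left h2 (by positivity)
    exact_mod_cast h3
  obtain ⟨c, hc, e8⟩ := hz₀ z e7
  -- `24 X < A ^ 4`
  have e9 : 24 * X < 4 ^ (4 * b) := by
    have h1 : (4 : ℕ) ^ (4 * b) = A ^ 4 := by rw [hA, ← pow_mul, mul_comm]
    rw [h1]
    have h2 : y ^ (1 / 3 : ℝ) ≤ A :=
      (Real.rpow_le_rpow_of_exponent_le hy (by linarith)).trans hA1
    have h3 : y ≤ (A : ℝ) ^ 3 := by
      have h4 : (y ^ (1 / 3 : ℝ)) ^ 3 = y := by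
        rw [← Real.rpow_natCast, ← Real.rpow_mul hy0.le]
        norm_num
      calc y = (y ^ (1 / 3 : ℝ)) ^ 3 := h4.symm
        _ ≤ (A : ℝ) ^ 3 := pow_le_pow_left₀ (Real.rpow_nonneg hy0.le _) h2 3
    have h5 : (40 : ℝ) ≤ A := by
      have h6 : y ^ (1 / 4 : ℝ) ≤ y ^ (1 / 3 : ℝ) :=
        Real.rpow_le_rpow_of_exponent_le hy (by norm_num)
      linarith
    have h7 : (X : ℝ) ≤ y := by
      rw [hydef]
      have : X ≤ Y := Nat.div_le_self _ _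
      exact_mod_cast this
    have h8 : ((24 * X : ℕ) : ℝ) < ((A ^ 4 : ℕ) : ℝ) := by
      push_cast
      have h9 : (A : ℝ) ^ 4 = (A : ℝ) ^ 3 * A := by ring
      rw [h9]
      nlinarith
    exact_mod_cast h8
  have e10 : 190 * d * z + A ≤ 24 * X := by nlinarith
  have e11 := hCC b l i c z X hb hl hl5 hodd e4' hc e10 e9
  rw [← hA] at e11
  have e12 : sE (A * X) ≤ sE Y := CY_sE_mono (by rw [mul_comm]; exact hX1)
  have e13 : (#{p ∈ Ioc z (2 * z) | p.Prime ∧ p % 24 = c} : ℝ) ≤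
      (((Nat.sqrt (8 * X + 1) + 1) * (X / A + 1) : ℕ) : ℝ) + 4 * sE Y := by
    have : #{p ∈ Ioc z (2 * z) | p.Prime ∧ p % 24 = c} ≤
        (Nat.sqrt (8 * X + 1) + 1) * (X / A + 1) + 4 * sE Y := by omega
    exact_mod_cast this
  exact (Real.rpow_le_rpow_of_exponent_le hy (by linarith only [hη2])).trans
    (CY_fin hK hy g2 e5 e6 e8 e13)

end Pool.Agent.EP
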