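import Pool.Agent.helper71.EP.SpecE

set_option autoImplicit false

open Finset
open scoped Real
open Pool.Agent.helper74.TG

namespace Pool.Agent.EP

theorem ESQ_step (q : ℕ) (hq : 1 ≤ q) :
    1 / ((q + 1 : ℕ) : ℝ) ^ (5 / 4 : ℝ) ≤
      4 * (1 / (q : ℝ) ^ (1 / 4 : ℝ) - 1 / ((q + 1 : ℕ) : ℝ) ^ (1 / 4 : ℝ)) := by
  have hq0 : (0 : ℝ) < (q : ℝ) := by exact_mod_cast hq
  have hq1 : (0 : ℝ) < ((q + 1 : ℕ) : ℝ) := by positivity
  set u : ℝ := (q : ℝ) ^ (1 / 4 : ℝ) with hu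
  set v : ℝ := ((q + 1 : ℕ) : ℝ) ^ (1 / 4 : ℝ) with hv
  have hu0 : 0 < u := Real.rpow_pos_of_pos hq0 _
  have hv0 : 0 < v := Real.rpow_pos_of_pos hq1 _
  have hu4 : u ^ 4 = (q : ℝ) := by
    rw [hu, ← Real.rpow_natCast, ← Real.rpow_mul hq0.le]; norm_num
  have hv4 : v ^ 4 = (q : ℝ) + 1 := by
    rw [hv, ← Real.rpow_natCast, ← Real.rpow_mul hq1.le]; push_cast; norm_num
  have hv5 : ((q + 1 : ℕ) : ℝ) ^ (5 / 4 : ℝ) = v ^ 5 := by
    rw [hv, ← Real.rpow_natCast, ← Real.rpow_mul hq1.le]; norm_num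
  have huv : u ≤ v := by
    apply Real.rpow_le_rpow hq0.le _ (by norm_num)
    push_cast; linarith
  rw [hv5]
  have hdiff : 1 ≤ (v - u) * (4 * v ^ 3) := by
    have h1 : v ^ 4 - u ^ 4 = 1 := by rw [hv4, hu4]; ring
    have h2 : v ^ 4 - u ^ 4 = (v - u) * (v ^ 3 + v ^ 2 * u + v * u ^ 2 + u ^ 3) := by ring
    have h3 : v ^ 3 + v ^ 2 * u + v * u ^ 2 + u ^ 3 ≤ 4 * v ^ 3 := by
      have a1 : v ^ 2 * u ≤ v ^ 2 * v := mul_le_mul_of_nonneg_left huv (by positivity)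
      have a2 : v * u ^ 2 ≤ v * v ^ 2 := mul_le_mul_of_nonneg_left (pow_le_pow_left₀ hu0.le huv 2) hv0.le
      have a3 : u ^ 3 ≤ v ^ 3 := pow_le_pow_left₀ hu0.le huv 3
      nlinarith
    calc (1 : ℝ) = (v - u) * (v ^ 3 + v ^ 2 * u + v * u ^ 2 + u ^ 3) := by rw [← h2, h1]
      _ ≤ (v - u) * (4 * v ^ 3) := mul_le_mul_of_nonneg_left h3 (by linarith)
  have h5 : 1 / u - 1 / v = (v - u) / (u * v) := by field_simp
  rw [h5, ← mul_div_assoc, div_le_div_iff₀ (by positivity) (by positivity), one_mul]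
  calc u * v ≤ v * v := mul_le_mul_of_nonneg_right huv hv0.le
    _ = 1 * v ^ 2 := by ring
    _ ≤ ((v - u) * (4 * v ^ 3)) * v ^ 2 := mul_le_mul_of_nonneg_right hdiff (by positivity)
    _ = 4 * (v - u) * v ^ 5 := by ring

theorem ESQ : ESQ_stmt := by
  intro p n hp
  have hp0 : (0 : ℝ) < (p : ℝ) := by exact_mod_cast hp
  have key : ∀ k : ℕ, ∑ q ∈ Ioc p (p + k), 1 / (q : ℝ) ^ (5 / 4 : ℝ) ≤
      4 * (1 / (p : ℝ) ^ (1 / 4 : ℝ) - 1 / ((p + k : ℕ) : ℝ) ^ (1 / 4 : ℝ)) := by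
    intro k
    induction k with
    | zero => simp
    | succ k ih =>
      rw [← add_assoc, Finset.sum_Ioc_succ_top (by omega)]
      have := ESQ_step (p + k) (by omega)
      linarith
  rcases Nat.lt_or_ge n p with h | h
  · rw [Finset.Ioc_eq_empty (by omega)]
    simp only [Finset.sum_empty]
    positivity
  · obtain ⟨k, rfl⟩ := Nat.exists_eq_add_of_le h
    refine (key k).trans ?_
    have h0 : (0 : ℝ) ≤ 1 / ((p + k : ℕ) : ℝ) ^ (1 / 4 : ℝ) := by positivity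
    calc 4 * (1 / (p : ℝ) ^ (1 / 4 : ℝ) - 1 / ((p + k : ℕ) : ℝ) ^ (1 / 4 : ℝ))
        ≤ 4 * (1 / (p : ℝ) ^ (1 / 4 : ℝ)) := by linarith
      _ = 4 / (p : ℝ) ^ (1 / 4 : ℝ) := by ring

end Pool.Agent.EP
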